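import Pool.Agent.P.MP_6da505_nt.U.Tri

open Finset

namespace Pool.Agent.P.MP_6da505_nt.U

lemma card_class (U n : ℕ) (S : Finset ℕ) (hS : ∀ u ∈ S, u ≤ U)
    (hc : ∀ u ∈ S, ∀ v ∈ S, (n : ℤ) ∣ (u : ℤ) - v) : S.card ≤ U / n + 1 := by
  rw [← card_range (U / n + 1)]
  refine card_le_card_of_injOn (fun u => u / n) ?_ ?_
  · intro u hu
    simp only [coe_range, Set.mem_Iio]
    exact Nat.lt_succ_of_le (Nat.div_le_div_right (hS u hu))
  · intro u hu v hv huv
    simp only at huv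
    have h1 : u % n = v % n := by
      have := hc u hu v hv
      exact ((Nat.modEq_iff_dvd).mpr this).symm
    rw [← Nat.div_add_mod u n, ← Nat.div_add_mod v n, huv, h1]

lemma card_sq (x k U : ℕ) (hx : x.Prime) (hx2 : 2 < x) (h D : ℤ) (hh : ¬ (x : ℤ) ∣ h)
    (S : Finset ℕ) (hS : ∀ u ∈ S, u ≤ U ∧ ¬ x ∣ u ∧ ((x ^ k : ℕ) : ℤ) ∣ h * (u : ℤ) ^ 2 - D) :
    S.card ≤ 2 * (U / x ^ k + 1) := by
  classical
  rcases S.eq_empty_or_nonempty with rfl | ⟨u0, hu0⟩
  · simp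
  have hp : Prime (x : ℤ) := Nat.prime_iff_prime_int.mp hx
  have key : ∀ u ∈ S, ((x ^ k : ℕ) : ℤ) ∣ (u : ℤ) - u0 ∨ ((x ^ k : ℕ) : ℤ) ∣ (u : ℤ) + u0 := by
    intro u hu
    have h1 := Int.dvd_sub (hS u hu).2.2 (hS u0 hu0).2.2
    have e : h * (u : ℤ) ^ 2 - D - (h * (u0 : ℤ) ^ 2 - D) = h * ((u - u0) * (u + u0)) := by ring
    rw [e] at h1
    push_cast at h1 ⊢
    have h2 := hp.pow_dvd_of_dvd_mul_left k hh h1
    by_cases h3 : (x : ℤ) ∣ (u : ℤ) - u0
    · left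
      refine hp.pow_dvd_of_dvd_mul_right k ?_ h2
      intro h4
      have h5 : (x : ℤ) ∣ 2 * (u : ℤ) := by
        have := Int.dvd_add h3 h4
        convert this using 1; ring
      rcases hp.dvd_or_dvd h5 with h6 | h6
      · have : x ∣ 2 := by exact_mod_cast h6
        have := Nat.le_of_dvd two_pos this
        omega
      · exact (hS u hu).2.1 (by exact_mod_cast h6)
    · right
      exact hp.pow_dvd_of_dvd_mul_left k h3 h2
  have hsub : S ⊆ S.filter (fun u => ((x ^ k : ℕ) : ℤ) ∣ (u : ℤ) - u0) ∪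
      S.filter (fun u => ((x ^ k : ℕ) : ℤ) ∣ (u : ℤ) + u0) := by
    intro u hu
    rcases key u hu with h1 | h1
    · exact mem_union_left _ (mem_filter.mpr ⟨hu, h1⟩)
    · exact mem_union_right _ (mem_filter.mpr ⟨hu, h1⟩)
  have b1 := card_class U (x ^ k) (S.filter (fun u => ((x ^ k : ℕ) : ℤ) ∣ (u : ℤ) - u0))
    (fun u hu => (hS u (mem_filter.mp hu).1).1) (fun u hu v hv => by
      have := Int.dvd_sub (mem_filter.mp hu).2 (mem_filter.mp hv).2
      convert this using 1; ring)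
  have b2 := card_class U (x ^ k) (S.filter (fun u => ((x ^ k : ℕ) : ℤ) ∣ (u : ℤ) + u0))
    (fun u hu => (hS u (mem_filter.mp hu).1).1) (fun u hu v hv => by
      have := Int.dvd_sub (mem_filter.mp hu).2 (mem_filter.mp hv).2
      convert this using 1; ring)
  have := (card_le_card hsub).trans (card_union_le _ _)
  omega

lemma card_triples (S : Finset (ℕ × ℕ × ℕ))
    (hS : ∀ t ∈ S, t.1.Prime ∧ t.2.1.Prime ∧ t.2.2.Prime) :
    S.card ≤ 27 * (S.image (fun t => t.1 * (t.2.1 * t.2.2))).card := by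
  classical
  refine card_le_mul_card_image S 27 ?_
  intro u hu
  obtain ⟨t0, ht0, rfl⟩ := mem_image.mp hu
  set F : Finset ℕ := {t0.1, t0.2.1, t0.2.2} with hF
  have hFc : F.card ≤ 3 := card_le_three
  have hin : ∀ p : ℕ, p.Prime → p ∣ t0.1 * (t0.2.1 * t0.2.2) → p ∈ F := by
    intro p hp hd
    obtain ⟨a1, a2, a3⟩ := hS t0 ht0
    simp only [hF, mem_insert, mem_singleton]
    rcases (Nat.Prime.dvd_mul hp).mp hd with h | h
    · exact Or.inl ((Nat.prime_dvd_prime_iff_eq hp a1).mp h)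
    · rcases (Nat.Prime.dvd_mul hp).mp h with h | h
      · exact Or.inr (Or.inl ((Nat.prime_dvd_prime_iff_eq hp a2).mp h))
      · exact Or.inr (Or.inr ((Nat.prime_dvd_prime_iff_eq hp a3).mp h))
  have hsub : S.filter (fun t => t.1 * (t.2.1 * t.2.2) = t0.1 * (t0.2.1 * t0.2.2))
      ⊆ F ×ˢ F ×ˢ F := by
    intro t ht
    obtain ⟨ht1, ht2⟩ := mem_filter.mp ht
    obtain ⟨a1, a2, a3⟩ := hS t ht1
    simp only [mem_product]
    refine ⟨hin _ a1 ?_, hin _ a2 ?_, hin _ a3 ?_⟩ <;> rw [← ht2]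
    · exact Dvd.intro _ rfl
    · exact Dvd.dvd.mul_left (Dvd.intro _ rfl) _
    · exact Dvd.dvd.mul_left (Dvd.intro_left _ rfl) _
  refine (card_le_card hsub).trans ?_
  rw [card_product, card_product]
  calc F.card * (F.card * F.card) ≤ 3 * (3 * 3) := by gcongr
    _ = 27 := rfl

/-- For fixed `x`, `D` the cofactor `u` is determined up to boundedly many choices. -/
theorem sum_al (x P : ℕ) (hx : x.Prime) (hP : 2 ≤ P) (hxP : P ^ 2 < x) (c : ℕ → ℂ) (z : c 0 = 0)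
    (pc : ∑ h ∈ range (x ^ 2), ‖c h‖ ^ 2 ≤ 1) (S : Finset (ℕ × ℕ × ℕ))
    (hS : ∀ t ∈ S, t.1.Prime ∧ t.2.1.Prime ∧ t.2.2.Prime)
    (hU : ∀ t ∈ S, t.1 * (t.2.1 * t.2.2) ≤ 64 * P ^ 4 ∧ ¬ x ∣ t.1 * (t.2.1 * t.2.2)) (D : ℤ) :
    ∑ t ∈ S, al (x ^ 2) c (t.1 ^ 2 * (t.2.1 * t.2.2) ^ 2) D
      ≤ 3510 * (if (x : ℤ) ∣ D then (P : ℝ) ^ 2 else 1) := by
  classical
  have hP2 : 4 ≤ P ^ 2 := by nlinarith
  have hx2 : 2 < x := by omega
  have hp : Prime (x : ℤ) := Nat.prime_iff_prime_int.mp hx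
  set M : ℝ := 3510 * (if (x : ℤ) ∣ D then (P : ℝ) ^ 2 else 1) with hM
  have hM0 : 0 ≤ M := by rw [hM]; split_ifs <;> positivity
  unfold al
  simp_rw [sum_filter]
  rw [sum_comm]
  refine le_trans (sum_le_sum (g := fun h => ‖c h‖ ^ 2 * M) fun h hh => ?_) ?_
  swap
  · rw [← sum_mul]; nlinarith
  rw [← sum_filter, sum_const, nsmul_eq_mul, mul_comm]
  rcases Nat.eq_zero_or_pos h with rfl | hpos
  · simp [z]
  refine mul_le_mul_of_nonneg_left ?_ (by positivity)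
  set T := S.filter (fun t => ((x ^ 2 : ℕ) : ℤ) ∣
    (h : ℤ) * ((t.1 ^ 2 * (t.2.1 * t.2.2) ^ 2 : ℕ) : ℤ) - D) with hT
  have h27 := card_triples T (fun t ht => hS t (mem_filter.mp ht).1)
  set V := T.image (fun t => t.1 * (t.2.1 * t.2.2)) with hV
  have hVm : ∀ u ∈ V, u ≤ 64 * P ^ 4 ∧ ¬ x ∣ u ∧ ((x ^ 2 : ℕ) : ℤ) ∣ (h : ℤ) * (u : ℤ) ^ 2 - D := by
    intro u hu
    obtain ⟨t, ht, rfl⟩ := mem_image.mp hu
    obtain ⟨ht1, ht2⟩ := mem_filter.mp ht
    refine ⟨(hU t ht1).1, (hU t ht1).2, ?_⟩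
    convert ht2 using 2
    push_cast; ring
  have hxx : (x : ℤ) ∣ ((x ^ 2 : ℕ) : ℤ) := by push_cast; exact Dvd.intro_left _ (sq _).symm
  by_cases hD : (x : ℤ) ∣ D
  · rw [hM, if_pos hD]
    have hVc : V.card ≤ 2 * (64 * P ^ 4 / x ^ 1 + 1) := by
      by_cases hxh : x ∣ h
      · obtain ⟨h', rfl⟩ := hxh
        obtain ⟨D', rfl⟩ := hD
        refine card_sq x 1 _ hx hx2 h' D' ?_ V ?_
        · intro hd
          have hd' : x ∣ h' := by exact_mod_cast hd
          have h0 : 0 < h' := Nat.pos_of_mul_pos_left hpos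
          have h1 := Nat.le_of_dvd h0 hd'
          have h2 := mem_range.mp hh
          nlinarith
        · intro u hu
          obtain ⟨a1, a2, a3⟩ := hVm u hu
          refine ⟨a1, a2, ?_⟩
          have hx0 : (x : ℤ) ≠ 0 := by exact_mod_cast hx.pos.ne'
          rw [pow_one]
          refine (mul_dvd_mul_iff_left hx0).mp ?_
          have e1 : (x : ℤ) * (x : ℤ) = ((x ^ 2 : ℕ) : ℤ) := by push_cast; ring
          have e2 : (x : ℤ) * ((h' : ℤ) * (u : ℤ) ^ 2 - D')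
              = ((x * h' : ℕ) : ℤ) * (u : ℤ) ^ 2 - (x : ℤ) * D' := by push_cast; ring
          rw [e1, e2]; exact a3
      · have : V = ∅ := by
          refine eq_empty_of_forall_notMem fun u hu => ?_
          obtain ⟨_, a2, a3⟩ := hVm u hu
          have h1 : (x : ℤ) ∣ (h : ℤ) * (u : ℤ) ^ 2 := by
            have := Int.dvd_add (hxx.trans a3) hD
            simpa using this
          rcases hp.dvd_or_dvd h1 with h2 | h2
          · exact hxh (by exact_mod_cast h2)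
          · exact a2 (by exact_mod_cast hp.dvd_of_dvd_pow h2)
        rw [this]; simp
    have hb : 64 * P ^ 4 / x ^ 1 ≤ 64 * P ^ 2 := by
      rw [pow_one]
      apply Nat.div_le_of_le_mul
      calc 64 * P ^ 4 = P ^ 2 * (64 * P ^ 2) := by ring
        _ ≤ x * (64 * P ^ 2) := by gcongr
    have : T.card ≤ 3510 * P ^ 2 := by omega
    exact_mod_cast this
  · rw [hM, if_neg hD]
    have hVc : V.card ≤ 2 * (64 * P ^ 4 / x ^ 2 + 1) := by
      by_cases hxh : (x : ℤ) ∣ h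
      · have : V = ∅ := by
          refine eq_empty_of_forall_notMem fun u hu => ?_
          obtain ⟨_, _, a3⟩ := hVm u hu
          apply hD
          have := Int.dvd_sub (hxh.mul_right ((u : ℤ) ^ 2)) (hxx.trans a3)
          simpa using this
        rw [this]; simp
      · exact card_sq x 2 _ hx hx2 h D hxh V hVm
    have hb : 64 * P ^ 4 / x ^ 2 ≤ 64 := by
      apply Nat.div_le_of_le_mul
      calc 64 * P ^ 4 = (P ^ 2) ^ 2 * 64 := by ring
        _ ≤ x ^ 2 * 64 := by gcongr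
    have : T.card ≤ 3510 := by omega
    rw [mul_one]
    exact_mod_cast this

end Pool.Agent.P.MP_6da505_nt.U
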