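import Pool.Agent.P.MP_6da505_nt.U.Cnt

open Finset

namespace Pool.Agent.P.MP_6da505_nt.U

lemma Es_sum {ι : Type*} (L : ℕ) (S : Finset ι) (f : ι → ℤ → ℝ) :
    Es L (fun n => ∑ t ∈ S, f t n) = ∑ t ∈ S, Es L (f t) := by
  unfold Es
  rw [sum_congr rfl fun i _ => sum_comm, sum_comm]

lemma Es_mono (L : ℕ) {f g : ℤ → ℝ} (h : ∀ n, f n ≤ g n) : Es L f ≤ Es L g :=
  sum_le_sum fun _ _ => sum_le_sum fun _ _ => h _

lemma Es_lin (L : ℕ) (a b : ℝ) (f g k : ℤ → ℝ) :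
    Es L (fun n => a * b + b * f n + a * g n + k n)
      = a * b * (L : ℝ) ^ 2 + b * Es L f + a * Es L g + Es L k := by
  unfold Es
  simp only [sum_add_distrib, mul_sum, sum_const, card_range, nsmul_eq_mul]
  ring

lemma Es_lower (N : ℕ) (A : Finset ℕ) (hA : ∀ a ∈ A, a ≤ N) (f : ℤ → ℝ) (hf : ∀ n, 0 ≤ f n)
    (v : ℝ) (hv : ∀ a ∈ A, f a = v) : N * A.card * v ≤ Es (2 * N) f := by
  unfold Es
  rw [sum_comm]
  calc (N : ℝ) * A.card * v = ∑ j ∈ range N, ∑ a ∈ A, v := by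
        simp only [sum_const, card_range, nsmul_eq_mul]; ring
    _ ≤ ∑ j ∈ range N, ∑ i ∈ range (2 * N), f ((i : ℤ) - (j : ℤ)) := by
        refine sum_le_sum fun j hj => ?_
        refine sum_le_sum_inj _ _ (fun a => a + j) _ _ ?_ ?_ ?_ ?_
        · intro a _ b _ h; simpa using h
        · intro a ha
          have := hA a ha
          have := mem_range.mp hj
          simp only [mem_range]; omega
        · intro a ha
          rw [← hv a ha]; apply le_of_eq; congr 1; push_cast; ring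
        · intro b _; exact hf _
    _ ≤ _ := by
        refine sum_le_sum_of_subset_of_nonneg (range_mono (by omega)) fun j _ _ => ?_
        exact sum_nonneg fun i _ => hf _

lemma sq_sum_le (X : Finset ℕ) (f : ℕ → ℝ) (hf : ∀ x, |f x| ≤ 1) :
    (∑ x ∈ X, f x) ^ 2 ≤ X.card + ∑ x ∈ X, ∑ x' ∈ X.erase x, f x * f x' := by
  rw [sq, sum_mul_sum]
  have : (X.card : ℝ) = ∑ x ∈ X, (1 : ℝ) := by simp
  rw [this, ← sum_add_distrib]
  refine sum_le_sum fun x hx => ?_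
  rw [← add_sum_erase X _ hx]
  have := abs_le.mp (hf x)
  nlinarith

lemma sum_erase_comm (X : Finset ℕ) (f : ℕ → ℕ → ℝ) :
    ∑ x ∈ X, ∑ x' ∈ X.erase x, f x x' = ∑ x' ∈ X, ∑ x ∈ X.erase x', f x x' := by
  refine sum_comm' fun x y => ?_
  simp only [mem_erase]
  constructor
  · rintro ⟨h1, h2, h3⟩; exact ⟨⟨fun h => h2 h.symm, h1⟩, h3⟩
  · rintro ⟨⟨h1, h2⟩, h3⟩; exact ⟨h2, fun h => h1 h.symm, h3⟩

section
variable (g : ℕ → ℤ → ℝ) (c : ℕ → ℕ → ℂ)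
  (hb : ∀ p n, |g p n| ≤ 1)
  (hper : ∀ (p : ℕ) (n m : ℤ), ((p ^ 2 : ℕ) : ℤ) ∣ n - m → g p n = g p m)
  (he : ∀ p, p.Prime → ∀ n : ℤ,
    (g p n : ℂ) = ∑ h ∈ range (p ^ 2), c p h * ex (n * h / (p ^ 2 : ℕ)))
  (hp : ∀ p, p.Prime → ∑ h ∈ range (p ^ 2), ‖c p h‖ ^ 2 ≤ 1)
  (hz : ∀ p, p.Prime → c p 0 = 0)
include he hp hz

lemma pair_bound (L : ℕ) {p p' : ℕ} (h1 : p.Prime) (h2 : p'.Prime) (hne : p ≠ p') (W : ℝ)
    (hW : ((p * p' : ℕ) : ℝ) ≤ W) : Es L (fun n => g p n * g p' n) ≤ 2 * W ^ 4 := by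
  obtain ⟨c3, e3, p3, -⟩ := fourier 1 one_pos (fun _ => 1) (fun _ _ _ => rfl) (fun _ => by simp)
  have hco : Nat.Coprime (p ^ 2) (p' ^ 2) :=
    Nat.Coprime.pow _ _ ((Nat.coprime_primes h1 h2).mpr hne)
  have := tri L (p ^ 2) (p' ^ 2) 1 (pow_pos h1.pos 2) (pow_pos h2.pos 2) one_pos hco
    (Nat.coprime_one_right _) (Nat.coprime_one_right _) (g p) (g p') (fun _ => 1) (c p) (c p') c3
    (he p h1) (he p' h2) e3 (hz p h1) p3 (W ^ 2 / 2) _ (by
      have h0 : (0 : ℝ) ≤ ((p * p' : ℕ) : ℝ) := by positivity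
      have : (((p * p' : ℕ) : ℝ)) ^ 2 ≤ W ^ 2 := by gcongr
      push_cast at this ⊢
      nlinarith) le_rfl
  simp only [mul_one] at this
  refine (le_abs_self _).trans (this.trans ?_)
  calc _ ≤ ∑ D ∈ Ds (p ^ 2 * p' ^ 2), kap L (W ^ 2 / 2) D := by
        refine sum_le_sum fun D _ => ?_
        have a1 := al_le_one (hp p h1) (p' ^ 2) D
        have a2 := al_le_one (hp p' h2) (p ^ 2) D
        have a3 := kap_nonneg L (W ^ 2 / 2) D
        nlinarith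
    _ ≤ 8 * (W ^ 2 / 2) ^ 2 := sum_kap_sq _ _ _
    _ = 2 * W ^ 4 := by ring

lemma off_bound (L : ℕ) (X : Finset ℕ) (W : ℕ) (hX : ∀ x ∈ X, x.Prime ∧ x ≤ W) :
    Es L (fun n => ∑ x ∈ X, ∑ x' ∈ X.erase x, g x n * g x' n)
      ≤ (X.card : ℝ) ^ 2 * (2 * (W : ℝ) ^ 8) := by
  rw [Es_sum]
  calc _ ≤ ∑ x ∈ X, (X.card : ℝ) * (2 * (W : ℝ) ^ 8) := by
        refine sum_le_sum fun x hx => ?_
        rw [Es_sum]
        calc _ ≤ ∑ x' ∈ X.erase x, (2 * (W : ℝ) ^ 8) := by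
              refine sum_le_sum fun x' hx' => ?_
              have hx'' := mem_erase.mp hx'
              have := pair_bound g c he hp hz L (hX x hx).1 (hX x' hx''.2).1 hx''.1.symm
                ((W : ℝ) ^ 2) (by
                  have a1 := (hX x hx).2
                  have a2 := (hX x' hx''.2).2
                  have : x * x' ≤ W ^ 2 := by rw [sq]; gcongr
                  exact_mod_cast this)
              refine this.trans (le_of_eq (by ring))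
          _ ≤ _ := by
              rw [sum_const, nsmul_eq_mul]
              gcongr
              exact erase_subset _ _
    _ = _ := by rw [sum_const, nsmul_eq_mul]; ring

include hb hper in
lemma quad_bound (L P : ℕ) (hL : 0 < L) (hP : 4 ≤ P) (X Y : Finset ℕ)
    (hX : ∀ x ∈ X, x.Prime ∧ P ^ 2 < x ∧ x ≤ 4 * P ^ 2) (hY : ∀ y ∈ Y, y.Prime ∧ y ≤ 4 * P) :
    Es L (fun n => (∑ x ∈ X, ∑ x' ∈ X.erase x, g x n * g x' n) *
        (∑ y ∈ Y, ∑ y' ∈ Y.erase y, g y n * g y' n))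
      ≤ X.card * (3510 * (8 * L * (32768 * (P : ℝ) ^ 12) + 8 * 32768 ^ 2 * (P : ℝ) ^ 22)) := by
  classical
  set R : ℝ := 32768 * (P : ℝ) ^ 12 with hR
  set B : ℕ := 65536 * P ^ 12 with hB
  set YY := (Y ×ˢ Y).filter (fun t => t.2 ≠ t.1) with hYY
  have hPP : 4 * P ≤ P ^ 2 := by nlinarith
  have hO2 : ∀ n, ∑ y ∈ Y, ∑ y' ∈ Y.erase y, g y n * g y' n = ∑ t ∈ YY, g t.1 n * g t.2 n := by
    intro n
    rw [hYY, sum_filter, sum_product]
    refine sum_congr rfl fun y _ => ?_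
    rw [← sum_filter]
    refine sum_congr ?_ fun _ _ => rfl
    ext y'; simp [and_comm]
  have hmY : ∀ t ∈ YY, t.1 ∈ Y ∧ t.2 ∈ Y := fun t ht => mem_product.mp (mem_filter.mp ht).1
  simp_rw [hO2, sum_mul, mul_sum]
  set W : ℕ → ℕ → ℕ × ℕ → ℤ → ℝ := fun x x' t D => al (x ^ 2) (c x) (x' ^ 2 * (t.1 * t.2) ^ 2) D
    with hW
  have step1 : ∀ x ∈ X, ∀ x' ∈ X.erase x, ∀ t ∈ YY,
      Es L (fun n => g x n * g x' n * (g t.1 n * g t.2 n))
        ≤ ∑ D ∈ Ds B, kap L R D * ((W x x' t D + W x' x t D) / 2) := by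
    intro x hx x' hx' t ht
    have hx'' := mem_erase.mp hx'
    obtain ⟨p1, l1, u1⟩ := hX x hx
    obtain ⟨p2, l2, u2⟩ := hX x' hx''.2
    obtain ⟨p3, u3⟩ := hY _ (hmY t ht).1
    obtain ⟨p4, u4⟩ := hY _ (hmY t ht).2
    have hr : 0 < (t.1 * t.2) ^ 2 := pow_pos (Nat.mul_pos p3.pos p4.pos) 2
    obtain ⟨c3, e3, q3, -⟩ := fourier ((t.1 * t.2) ^ 2) hr (fun n => g t.1 n * g t.2 n)
      (fun n m h => by
        have d1 : ((t.1 ^ 2 : ℕ) : ℤ) ∣ n - m :=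
          Dvd.dvd.trans ⟨(t.2 : ℤ) ^ 2, by push_cast; ring⟩ h
        have d2 : ((t.2 ^ 2 : ℕ) : ℤ) ∣ n - m :=
          Dvd.dvd.trans ⟨(t.1 : ℤ) ^ 2, by push_cast; ring⟩ h
        simp only [hper _ _ _ d1, hper _ _ _ d2])
      (fun n => by
        rw [abs_mul]
        exact mul_le_one₀ (hb _ _) (abs_nonneg _) (hb _ _))
    have co : ∀ z, z.Prime → P ^ 2 < z → Nat.Coprime (z ^ 2) ((t.1 * t.2) ^ 2) := by
      intro z hz hl
      refine Nat.Coprime.pow _ _ (Nat.Coprime.mul_right ?_ ?_)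
      · exact (Nat.coprime_primes hz p3).mpr (by omega)
      · exact (Nat.coprime_primes hz p4).mpr (by omega)
    have hQ : x ^ 2 * x' ^ 2 * (t.1 * t.2) ^ 2 ≤ B := by
      calc x ^ 2 * x' ^ 2 * (t.1 * t.2) ^ 2
          ≤ (4 * P ^ 2) ^ 2 * (4 * P ^ 2) ^ 2 * ((4 * P) * (4 * P)) ^ 2 := by gcongr
        _ = B := by rw [hB]; ring
    have := tri L (x ^ 2) (x' ^ 2) ((t.1 * t.2) ^ 2) (pow_pos p1.pos 2) (pow_pos p2.pos 2) hr
      (Nat.Coprime.pow _ _ ((Nat.coprime_primes p1 p2).mpr hx''.1.symm)) (co x p1 l1) (co x' p2 l2)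
      (g x) (g x') (fun n => g t.1 n * g t.2 n) (c x) (c x') c3 (he x p1) (he x' p2) e3 (hz x p1) q3
      R B (by
        have : ((x ^ 2 * x' ^ 2 * (t.1 * t.2) ^ 2 : ℕ) : ℝ) ≤ (B : ℝ) := by exact_mod_cast hQ
        refine this.trans (le_of_eq ?_)
        rw [hB, hR]; push_cast; ring) hQ
    exact (le_abs_self _).trans this
  have step2 : ∀ x ∈ X, ∑ x' ∈ X.erase x, ∑ t ∈ YY, ∑ D ∈ Ds B, kap L R D * W x x' t D
      ≤ 3510 * (8 * L * R + 8 * 32768 ^ 2 * (P : ℝ) ^ 22) := by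
    intro x hx
    obtain ⟨p1, l1, u1⟩ := hX x hx
    have hPr : (0 : ℝ) < P := by positivity
    have hS : ∀ D, ∑ x' ∈ X.erase x, ∑ t ∈ YY, W x x' t D
        ≤ 3510 * (if (x : ℤ) ∣ D then (P : ℝ) ^ 2 else 1) := by
      intro D
      rw [← sum_product']
      refine sum_al x P p1 (by omega) l1 (c x) (hz x p1) (hp x p1) _ ?_ ?_ D
      · intro t ht
        obtain ⟨h1, h2⟩ := mem_product.mp ht
        exact ⟨(hX _ (mem_erase.mp h1).2).1, (hY _ (hmY _ h2).1).1, (hY _ (hmY _ h2).2).1⟩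
      · intro t ht
        obtain ⟨h1, h2⟩ := mem_product.mp ht
        obtain ⟨p2, l2, u2⟩ := hX _ (mem_erase.mp h1).2
        obtain ⟨p3, u3⟩ := hY _ (hmY _ h2).1
        obtain ⟨p4, u4⟩ := hY _ (hmY _ h2).2
        constructor
        · calc t.1 * (t.2.1 * t.2.2) ≤ (4 * P ^ 2) * ((4 * P) * (4 * P)) := by gcongr
            _ = 64 * P ^ 4 := by ring
        · intro hd
          rcases (Nat.Prime.dvd_mul p1).mp hd with h | h
          · exact (mem_erase.mp h1).1 ((Nat.prime_dvd_prime_iff_eq p1 p2).mp h).symm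
          · rcases (Nat.Prime.dvd_mul p1).mp h with h | h
            · have := (Nat.prime_dvd_prime_iff_eq p1 p3).mp h; omega
            · have := (Nat.prime_dvd_prime_iff_eq p1 p4).mp h; omega
    rw [sum_congr rfl fun x' _ => sum_comm, sum_comm]
    simp_rw [← mul_sum]
    calc _ ≤ ∑ D ∈ Ds B, 3510 * (kap L R D
            + (P : ℝ) ^ 2 * (if (x : ℤ) ∣ D then kap L R D else 0)) := by
          refine sum_le_sum fun D _ => ?_
          have a1 := kap_nonneg L R D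
          refine (mul_le_mul_of_nonneg_left (hS D) a1).trans ?_
          split_ifs
          · nlinarith
          · nlinarith
      _ = 3510 * (∑ D ∈ Ds B, kap L R D
            + (P : ℝ) ^ 2 * ∑ D ∈ (Ds B).filter (fun D => (x : ℤ) ∣ D), kap L R D) := by
          rw [← mul_sum, sum_add_distrib, ← mul_sum, sum_filter]
      _ ≤ 3510 * (8 * L * R + (P : ℝ) ^ 2 * (8 * R ^ 2 / ((P : ℝ) ^ 2) ^ 2)) := by
          have a1 := sum_kap (L := L) (R := R) (by positivity) (by positivity) B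
          have a2 := sum_kap_dvd L R B x p1.pos
          have a3 : 8 * R ^ 2 / (x : ℝ) ^ 2 ≤ 8 * R ^ 2 / ((P : ℝ) ^ 2) ^ 2 := by
            have : (P : ℝ) ^ 2 ≤ x := by exact_mod_cast l1.le
            gcongr
          have a4 := a2.trans a3
          gcongr
      _ = _ := by rw [hR]; field_simp
  have e1 : Es L (fun n => ∑ x ∈ X, ∑ x' ∈ X.erase x, ∑ t ∈ YY,
      g x n * g x' n * (g t.1 n * g t.2 n))
      = ∑ x ∈ X, ∑ x' ∈ X.erase x, ∑ t ∈ YY,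
        Es L (fun n => g x n * g x' n * (g t.1 n * g t.2 n)) := by
    rw [Es_sum]
    refine sum_congr rfl fun x _ => ?_
    rw [Es_sum]
    refine sum_congr rfl fun x' _ => ?_
    rw [Es_sum]
  rw [e1]
  set M : ℝ := 3510 * (8 * L * R + 8 * 32768 ^ 2 * (P : ℝ) ^ 22) with hM
  set V : ℕ → ℕ → ℝ := fun x x' => ∑ t ∈ YY, ∑ D ∈ Ds B, kap L R D * W x x' t D with hV
  have s1 : ∑ x ∈ X, ∑ x' ∈ X.erase x, V x x' ≤ X.card * M := by
    calc _ ≤ ∑ x ∈ X, M := sum_le_sum step2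
      _ = _ := by rw [sum_const, nsmul_eq_mul]
  have s2 : ∑ x ∈ X, ∑ x' ∈ X.erase x, V x' x ≤ X.card * M := by
    rw [sum_erase_comm X (fun x x' => V x' x)]; exact s1
  calc _ ≤ ∑ x ∈ X, ∑ x' ∈ X.erase x, (V x x' + V x' x) / 2 := by
        refine sum_le_sum fun x hx => sum_le_sum fun x' hx' => ?_
        refine (sum_le_sum fun t ht => step1 x hx x' hx' t ht).trans (le_of_eq ?_)
        simp only [hV]
        rw [← sum_add_distrib, sum_div]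
        refine sum_congr rfl fun t _ => ?_
        rw [← sum_add_distrib, sum_div]
        refine sum_congr rfl fun D _ => by ring
    _ = (∑ x ∈ X, ∑ x' ∈ X.erase x, V x x' + ∑ x ∈ X, ∑ x' ∈ X.erase x, V x' x) / 2 := by
        rw [← sum_add_distrib, sum_div]
        refine sum_congr rfl fun x _ => ?_
        rw [← sum_add_distrib, sum_div]
    _ ≤ _ := by linarith

end

open Classical in
/-- The odd function attached to `A` modulo `p ^ 2`. -/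
noncomputable def gA (A : Finset ℕ) (p : ℕ) (n : ℤ) : ℝ :=
  (if ∃ a ∈ A, ((p ^ 2 : ℕ) : ℤ) ∣ n - a then 1 else 0)
    - (if ∃ a ∈ A, ((p ^ 2 : ℕ) : ℤ) ∣ -n - a then 1 else 0)

lemma gA_abs (A : Finset ℕ) (p : ℕ) (n : ℤ) : |gA A p n| ≤ 1 := by
  unfold gA; split_ifs <;> norm_num

lemma gA_odd (A : Finset ℕ) (p : ℕ) (n : ℤ) : gA A p (-n) = - gA A p n := by
  unfold gA; rw [neg_neg]; ring

lemma gA_per (A : Finset ℕ) (p : ℕ) (n m : ℤ) (h : ((p ^ 2 : ℕ) : ℤ) ∣ n - m) :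
    gA A p n = gA A p m := by
  have e1 : ∀ a : ℕ, ((p ^ 2 : ℕ) : ℤ) ∣ n - a ↔ ((p ^ 2 : ℕ) : ℤ) ∣ m - a := by
    intro a
    have : n - a = (n - m) + (m - a) := by ring
    rw [this]; exact (Int.dvd_add_right h)
  have e2 : ∀ a : ℕ, ((p ^ 2 : ℕ) : ℤ) ∣ -n - a ↔ ((p ^ 2 : ℕ) : ℤ) ∣ -m - a := by
    intro a
    have : -n - a = -(n - m) + (-m - a) := by ring
    rw [this]; exact (Int.dvd_add_right (Int.dvd_neg.mpr h))
  unfold gA
  simp_rw [e1, e2]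

lemma gA_one (A : Finset ℕ) (hsq : ∀ a ∈ A, ∀ b ∈ A, Squarefree (a + b)) {p : ℕ} (hp : p.Prime)
    {a : ℕ} (ha : a ∈ A) : gA A p a = 1 := by
  unfold gA
  rw [if_pos ⟨a, ha, by simp⟩, if_neg, sub_zero]
  rintro ⟨b, hb, hd⟩
  have h1 : ((p ^ 2 : ℕ) : ℤ) ∣ ((a + b : ℕ) : ℤ) := by
    have := Int.dvd_neg.mpr hd
    convert this using 1; push_cast; ring
  have h2 : p * p ∣ a + b := by rw [← sq]; exact_mod_cast h1
  exact hp.one_lt.ne' (Nat.isUnit_iff.mp (hsq a ha b hb p h2))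

theorem core (N P : ℕ) (hN : 0 < N) (hP : 4 ≤ P) (A : Finset ℕ) (hA : ∀ a ∈ A, a ≤ N)
    (hsq : ∀ a ∈ A, ∀ b ∈ A, Squarefree (a + b)) (X Y : Finset ℕ)
    (hX : ∀ x ∈ X, x.Prime ∧ P ^ 2 < x ∧ x ≤ 4 * P ^ 2) (hY : ∀ y ∈ Y, y.Prime ∧ y ≤ 4 * P) :
    (N : ℝ) * A.card * ((X.card : ℝ) ^ 2 * (Y.card : ℝ) ^ 2) ≤
      X.card * Y.card * (2 * (N : ℝ)) ^ 2
      + Y.card * ((X.card : ℝ) ^ 2 * (2 * (4 * (P : ℝ) ^ 2) ^ 8))
      + X.card * ((Y.card : ℝ) ^ 2 * (2 * (4 * (P : ℝ)) ^ 8))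
      + X.card * (3510 * (8 * (2 * N) * (32768 * (P : ℝ) ^ 12) + 8 * 32768 ^ 2 * (P : ℝ) ^ 22)) := by
  have hf : ∀ p : ℕ, ∃ c : ℕ → ℂ, p.Prime →
      (∀ n : ℤ, (gA A p n : ℂ) = ∑ h ∈ range (p ^ 2), c h * ex (n * h / (p ^ 2 : ℕ))) ∧
      ∑ h ∈ range (p ^ 2), ‖c h‖ ^ 2 ≤ 1 ∧ c 0 = 0 := by
    intro p
    by_cases hp : p.Prime
    · obtain ⟨c, h1, h2, h3⟩ := fourier (p ^ 2) (pow_pos hp.pos 2) (gA A p) (gA_per A p) (gA_abs A p)
      exact ⟨c, fun _ => ⟨h1, h2, h3 (gA_odd A p)⟩⟩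
    · exact ⟨0, fun h => absurd h hp⟩
  choose c hc using hf
  have he := fun p hp => (hc p hp).1
  have hp := fun p hp => (hc p hp).2.1
  have hz := fun p hp => (hc p hp).2.2
  have b0 := Es_lower N A hA
    (fun n => (∑ x ∈ X, gA A x n) ^ 2 * (∑ y ∈ Y, gA A y n) ^ 2) (fun n => by positivity)
    ((X.card : ℝ) ^ 2 * (Y.card : ℝ) ^ 2) (fun a ha => by
      rw [sum_congr rfl fun x hx => gA_one A hsq (hX x hx).1 ha,
        sum_congr rfl fun y hy => gA_one A hsq (hY y hy).1 ha]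
      simp)
  have b1 := off_bound (gA A) c he hp hz (2 * N) X (4 * P ^ 2) (fun x hx => ⟨(hX x hx).1, (hX x hx).2.2⟩)
  have b2 := off_bound (gA A) c he hp hz (2 * N) Y (4 * P) hY
  have b3 := quad_bound (gA A) c (gA_abs A) (gA_per A) he hp hz (2 * N) P (by omega) hP X Y hX hY
  have b4 := Es_mono (2 * N)
    (f := fun n => (∑ x ∈ X, gA A x n) ^ 2 * (∑ y ∈ Y, gA A y n) ^ 2)
    (g := fun n => (X.card : ℝ) * Y.card
      + Y.card * (∑ x ∈ X, ∑ x' ∈ X.erase x, gA A x n * gA A x' n)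
      + X.card * (∑ y ∈ Y, ∑ y' ∈ Y.erase y, gA A y n * gA A y' n)
      + (∑ x ∈ X, ∑ x' ∈ X.erase x, gA A x n * gA A x' n)
        * (∑ y ∈ Y, ∑ y' ∈ Y.erase y, gA A y n * gA A y' n)) (fun n => by
      have a1 := sq_sum_le X (fun x => gA A x n) (fun x => gA_abs A x n)
      have a2 := sq_sum_le Y (fun x => gA A x n) (fun x => gA_abs A x n)
      have a3 := mul_le_mul a1 a2 (sq_nonneg _) ((sq_nonneg _).trans a1)
      refine a3.trans (le_of_eq (by ring)))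
  rw [Es_lin] at b4
  push_cast at b1 b2 b3 b4
  have c1 := mul_le_mul_of_nonneg_left b1 (Nat.cast_nonneg (α := ℝ) Y.card)
  have c2 := mul_le_mul_of_nonneg_left b2 (Nat.cast_nonneg (α := ℝ) X.card)
  linarith

end Pool.Agent.P.MP_6da505_nt.U
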