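import Pool.Agent.P.MP_6da505_nt.U.Core

open Finset

namespace Pool.Agent.P.MP_6da505_nt.U

lemma primes_many (n : ℕ) (hn : 25000000 ≤ n) :
    (n : ℝ) ≤ ((Ioc n (4 * n)).filter Nat.Prime).card * Real.log (4 * n) := by
  have h1 := Chebyshev.theta_ge (4 * n)
  have h2 := Chebyshev.theta_le_log4_mul_x (x := n) (by positivity)
  have hn' : (25000000 : ℝ) ≤ n := by exact_mod_cast hn
  have h3 : Chebyshev.theta ((4 * n : ℕ) : ℝ) = Chebyshev.theta n
      + ∑ p ∈ (Ioc n (4 * n)).filter Nat.Prime, Real.log p := by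
    unfold Chebyshev.theta
    rw [Nat.floor_natCast, Nat.floor_natCast, ← sum_union, ← filter_union,
      Ioc_union_Ioc_eq_Ioc (by omega) (by omega)]
    refine disjoint_filter_filter ?_
    rw [disjoint_left]
    intro a h h'
    simp only [mem_Ioc] at h h'
    omega
  have h4 : ∑ p ∈ (Ioc n (4 * n)).filter Nat.Prime, Real.log p
      ≤ ((Ioc n (4 * n)).filter Nat.Prime).card * Real.log (4 * n) := by
    rw [← nsmul_eq_mul, ← sum_const]
    refine sum_le_sum fun p hp => ?_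
    have := mem_Ioc.mp (mem_filter.mp hp).1
    have a1 : (p : ℝ) ≤ 4 * n := by exact_mod_cast this.2
    have a2 : (0 : ℝ) < p := by exact_mod_cast (mem_filter.mp hp).2.pos
    exact Real.log_le_log a2 a1
  set m : ℝ := 4 * n with hm
  have hm0 : 0 < m := by positivity
  set s : ℝ := √(√m) with hs
  have hs2 : s ^ 2 = √m := Real.sq_sqrt (Real.sqrt_nonneg _)
  have hs4 : s ^ 4 = m := by
    have : s ^ 4 = (s ^ 2) ^ 2 := by ring
    rw [this, hs2, Real.sq_sqrt hm0.le]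
  have hs0 : 0 ≤ s := Real.sqrt_nonneg _
  have hs100 : 100 ≤ s := by
    by_contra hc
    push Not at hc
    have : s ^ 4 < 100 ^ 4 := by gcongr
    linarith
  have hl : Real.log m ≤ 4 * s := by
    rw [← hs4, Real.log_pow]
    have := Real.log_le_sub_one_of_pos (x := s) (by linarith)
    push_cast; linarith
  have hl2 : Real.log (m + 1) ≤ 1 + 4 * s := by
    have a1 : Real.log (m + 1) ≤ Real.log (2 * m) := Real.log_le_log (by linarith) (by linarith)
    rw [Real.log_mul (by norm_num) hm0.ne'] at a1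
    have := Real.log_two_lt_d9
    linarith
  have hl4 : Real.log 4 = 2 * Real.log 2 := by
    rw [show (4 : ℝ) = 2 ^ 2 by norm_num, Real.log_pow]; norm_num
  rw [h3] at h1
  push_cast at h1
  rw [← hm, ← hs2] at h1
  rw [hl4] at h2
  have a2 := Real.log_two_gt_d9
  have a3 : 2 * s ^ 2 * Real.log m ≤ 2 * s ^ 2 * (4 * s) := by gcongr
  have a4 : 100 * s ^ 3 ≤ s ^ 4 := by nlinarith [pow_nonneg hs0 3]
  have a5 : 10000 * s ≤ s ^ 3 := by nlinarith [mul_nonneg hs0 hs0]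
  have a6 : 0.69 * (n : ℝ) ≤ Real.log 2 * n := by gcongr; linarith
  nlinarith

lemma arith {N Z a b P l : ℝ} (hP : 1 ≤ P) (hN1 : P ^ 11 ≤ N) (hN2 : N ≤ 2048 * P ^ 11)
    (hl : 1 ≤ l) (ha : 1 ≤ a) (hb : 1 ≤ b) (hal : P ^ 2 ≤ a * l) (hbl : P ≤ b * l)
    (h : N * Z * (a ^ 2 * b ^ 2) ≤ a * b * (2 * N) ^ 2 + b * (a ^ 2 * (2 * (4 * P ^ 2) ^ 8))
      + a * (b ^ 2 * (2 * (4 * P) ^ 8))
      + a * (3510 * (8 * (2 * N) * (32768 * P ^ 12) + 8 * 32768 ^ 2 * P ^ 22))) :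
    Z ≤ 10 ^ 14 * (P ^ 8 * l ^ 3) := by
  have hP0 : 0 < P := by linarith
  have hN0 : 0 < N := lt_of_lt_of_le (by positivity) hN1
  have hN3 : 1 ≤ N := le_trans (one_le_pow₀ hP) hN1
  set H : ℝ := N * (P ^ 8 * l ^ 3) * (a ^ 2 * b ^ 2) with hH
  have t1 : a * b * (2 * N) ^ 2 ≤ 8192 * H := by
    have u1 : P ^ 2 * P ≤ (a * l) * (b * l) * l := by
      calc P ^ 2 * P ≤ (a * l) * (b * l) := by gcongr
        _ = (a * l) * (b * l) * 1 := by ring
        _ ≤ _ := by gcongr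
    calc a * b * (2 * N) ^ 2 = 4 * (a * b * N) * N := by ring
      _ ≤ 4 * (a * b * N) * (2048 * P ^ 11) := by gcongr
      _ = 8192 * (a * b * N * P ^ 8) * (P ^ 2 * P) := by ring
      _ ≤ 8192 * (a * b * N * P ^ 8) * ((a * l) * (b * l) * l) := by gcongr
      _ = _ := by rw [hH]; ring
  have hl3 : 1 ≤ l ^ 3 := one_le_pow₀ hl
  have t2 : b * (a ^ 2 * (2 * (4 * P ^ 2) ^ 8)) ≤ 131072 * H := by
    have u1 : P ^ 8 ≤ N := le_trans (pow_le_pow_right₀ hP (by norm_num)) hN1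
    calc b * (a ^ 2 * (2 * (4 * P ^ 2) ^ 8)) = 131072 * (P ^ 8 * (P ^ 8 * 1) * (a ^ 2 * (b * 1))) := by
          ring
      _ ≤ 131072 * (N * (P ^ 8 * l ^ 3) * (a ^ 2 * (b * b))) := by gcongr
      _ = _ := by rw [hH]; ring
  have t3 : a * (b ^ 2 * (2 * (4 * P) ^ 8)) ≤ 131072 * H := by
    calc a * (b ^ 2 * (2 * (4 * P) ^ 8)) = 131072 * (1 * (P ^ 8 * 1) * (a * 1 * b ^ 2)) := by ring
      _ ≤ 131072 * (N * (P ^ 8 * l ^ 3) * (a * a * b ^ 2)) := by gcongr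
      _ = _ := by rw [hH]; ring
  have t4 : a * (3510 * (8 * (2 * N) * (32768 * P ^ 12) + 8 * 32768 ^ 2 * P ^ 22))
      ≤ (3510 * (16 * 32768 + 8 * 32768 ^ 2)) * H := by
    have u1 : P ^ 22 ≤ N * P ^ 12 := by
      calc P ^ 22 = P ^ 11 * P ^ 11 := by ring
        _ ≤ N * P ^ 12 := by gcongr; norm_num
    have u2 : P ^ 2 * P * P ≤ (a * l) * (b * l) * (b * l) := by gcongr
    calc _ ≤ a * (3510 * (8 * (2 * N) * (32768 * P ^ 12) + 8 * 32768 ^ 2 * (N * P ^ 12))) := by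
          gcongr
      _ = (3510 * (16 * 32768 + 8 * 32768 ^ 2)) * (a * N * P ^ 8 * (P ^ 2 * P * P)) := by ring
      _ ≤ (3510 * (16 * 32768 + 8 * 32768 ^ 2)) * (a * N * P ^ 8 * ((a * l) * (b * l) * (b * l))) := by
          gcongr
      _ = _ := by rw [hH]; ring
  have hH0 : 0 ≤ H := by positivity
  have key : N * Z * (a ^ 2 * b ^ 2) ≤ 10 ^ 14 * H := by linarith
  have hpos : 0 < N * (a ^ 2 * b ^ 2) := by positivity
  refine le_of_mul_le_mul_left ?_ hpos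
  calc N * (a ^ 2 * b ^ 2) * Z = N * Z * (a ^ 2 * b ^ 2) := by ring
    _ ≤ 10 ^ 14 * H := key
    _ = _ := by rw [hH]; ring

theorem finite_bound : ∃ C : ℝ, 0 < C ∧ ∀ (N : ℕ) (A : Finset ℕ), 2 ≤ N → A ⊆ Icc 1 N →
    (∀ a ∈ A, ∀ b ∈ A, Squarefree (a + b)) →
    (A.card : ℝ) ≤ C * (N : ℝ) ^ (8 / 11 : ℝ) * Real.log N ^ 3 := by
  refine ⟨4 * 25000000 ^ 11, by positivity, fun N A hN hA hsq => ?_⟩
  obtain ⟨P, hP1, hP2⟩ : ∃ P : ℕ, P ^ 11 ≤ N ∧ N < (P + 1) ^ 11 :=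
    ⟨Nat.nthRoot 11 N, Nat.pow_nthRoot_le (Or.inl (by norm_num)),
      Nat.lt_pow_nthRoot_add_one (by norm_num) N⟩
  have hN' : (2 : ℝ) ≤ N := by exact_mod_cast hN
  have hr1 : (1 : ℝ) ≤ (N : ℝ) ^ (8 / 11 : ℝ) := Real.one_le_rpow (by linarith) (by norm_num)
  have hl2 : Real.log 2 ≤ Real.log N := Real.log_le_log (by norm_num) hN'
  have a2 := Real.log_two_gt_d9
  by_cases hP : 25000000 ≤ P
  · have hPr : (25000000 : ℝ) ≤ P := by exact_mod_cast hP
    have hP1r : (P : ℝ) ^ 11 ≤ N := by exact_mod_cast hP1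
    have hP2r : (N : ℝ) ≤ 2048 * (P : ℝ) ^ 11 := by
      have : N ≤ (2 * P) ^ 11 := hP2.le.trans (by gcongr; omega)
      have h2 : (N : ℝ) ≤ (2 * (P : ℝ)) ^ 11 := by exact_mod_cast this
      linarith [show (2 * (P : ℝ)) ^ 11 = 2048 * (P : ℝ) ^ 11 by ring]
    have hP1' : (1 : ℝ) ≤ P := by linarith
    have hb1 : 4 * (P : ℝ) ^ 2 ≤ N := by
      calc 4 * (P : ℝ) ^ 2 ≤ P * (P : ℝ) ^ 2 := by gcongr; linarith
        _ = (P : ℝ) ^ 3 := by ring
        _ ≤ (P : ℝ) ^ 11 := pow_le_pow_right₀ hP1' (by norm_num)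
        _ ≤ N := hP1r
    have hb2 : 4 * (P : ℝ) ≤ N := by nlinarith
    have hl : 1 ≤ Real.log N := by
      have : Real.log 4 ≤ Real.log N := Real.log_le_log (by norm_num) (by linarith)
      rw [show (4 : ℝ) = 2 ^ 2 by norm_num, Real.log_pow] at this
      push_cast at this; linarith
    have x1 := primes_many (P ^ 2) (by nlinarith)
    have y1 := primes_many P hP
    set X := (Ioc (P ^ 2) (4 * P ^ 2)).filter Nat.Prime with hX
    set Y := (Ioc P (4 * P)).filter Nat.Prime with hY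
    push_cast at x1
    have x2 : (P : ℝ) ^ 2 ≤ X.card * Real.log N :=
      x1.trans (by gcongr)
    have y2 : (P : ℝ) ≤ Y.card * Real.log N :=
      y1.trans (by gcongr)
    have x3 : (1 : ℝ) ≤ X.card := by
      have : X.card ≠ 0 := by
        intro h; rw [h] at x2; simp only [Nat.cast_zero, zero_mul] at x2; nlinarith
      exact_mod_cast Nat.one_le_iff_ne_zero.mpr this
    have y3 : (1 : ℝ) ≤ Y.card := by
      have : Y.card ≠ 0 := by
        intro h; rw [h] at y2; simp only [Nat.cast_zero, zero_mul] at y2; linarith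
      exact_mod_cast Nat.one_le_iff_ne_zero.mpr this
    have hc := core N P (by omega) (by omega) A (fun a ha => (mem_Icc.mp (hA ha)).2) hsq X Y
      (fun x hx => by
        have := mem_filter.mp hx
        exact ⟨this.2, (mem_Ioc.mp this.1).1, (mem_Ioc.mp this.1).2⟩)
      (fun y hy => by
        have := mem_filter.mp hy
        exact ⟨this.2, (mem_Ioc.mp this.1).2⟩)
    have hz := arith hP1' hP1r hP2r hl x3 y3 x2 y2 hc
    have h8 : (P : ℝ) ^ 8 ≤ (N : ℝ) ^ (8 / 11 : ℝ) := by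
      have : (P : ℝ) ^ 8 = ((P : ℝ) ^ 11) ^ (8 / 11 : ℝ) := by
        rw [← Real.rpow_natCast, ← Real.rpow_natCast, ← Real.rpow_mul (by positivity)]
        norm_num
      rw [this]
      gcongr
    calc (A.card : ℝ) ≤ 10 ^ 14 * ((P : ℝ) ^ 8 * Real.log N ^ 3) := hz
      _ ≤ (4 * 25000000 ^ 11) * ((N : ℝ) ^ (8 / 11 : ℝ) * Real.log N ^ 3) := by
          gcongr; norm_num
      _ = _ := by ring
  · have h1 : A.card ≤ 25000000 ^ 11 := by
      have a1 := card_le_card hA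
      rw [Nat.card_Icc] at a1
      have a3 : (P + 1) ^ 11 ≤ 25000000 ^ 11 := by gcongr; omega
      omega
    have h2 : (A.card : ℝ) ≤ 25000000 ^ 11 := by exact_mod_cast h1
    have h3 : (0.69 : ℝ) ^ 3 ≤ Real.log N ^ 3 := by gcongr; linarith
    calc (A.card : ℝ) ≤ 4 * 25000000 ^ 11 * 1 * 0.69 ^ 3 := by linarith
      _ ≤ _ := by gcongr

end Pool.Agent.P.MP_6da505_nt.U
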