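import Mathlib

open Finset Complex

namespace Pool.Agent.P.MP_6da505_nt.U

noncomputable def ex (t : ℝ) : ℂ := Complex.exp (2 * Real.pi * t * I)

lemma ex_add (s t : ℝ) : ex (s + t) = ex s * ex t := by
  unfold ex; rw [← Complex.exp_add]; congr 1; push_cast; ring

lemma ex_int (n : ℤ) : ex n = 1 := by
  unfold ex
  rw [Complex.exp_eq_one_iff]
  exact ⟨n, by push_cast; ring⟩

lemma ex_zero : ex 0 = 1 := by simpa using ex_int 0

lemma norm_ex (t : ℝ) : ‖ex t‖ = 1 := by
  unfold ex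
  have : (2 * Real.pi * t * I : ℂ) = ((2 * Real.pi * t : ℝ) : ℂ) * I := by push_cast; ring
  rw [this, Complex.norm_exp_ofReal_mul_I]

lemma conj_ex (t : ℝ) : (starRingEnd ℂ) (ex t) = ex (-t) := by
  unfold ex
  rw [← Complex.exp_conj]; congr 1
  simp [Complex.conj_ofReal, map_ofNat]

lemma ex_nat_mul (n : ℕ) (t : ℝ) : ex (n * t) = ex t ^ n := by
  unfold ex
  rw [← Complex.exp_nat_mul]; congr 1; push_cast; ring

lemma ex_eq_one {t : ℝ} (h : ex t = 1) : ∃ n : ℤ, t = n := by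
  unfold ex at h
  rw [Complex.exp_eq_one_iff] at h
  obtain ⟨n, hn⟩ := h
  refine ⟨n, ?_⟩
  have h2 : (2 * Real.pi * I : ℂ) ≠ 0 := by
    simp [Real.pi_ne_zero]
  have : (t : ℂ) = n := by
    apply mul_left_cancel₀ h2
    linear_combination hn
  exact_mod_cast this

lemma orth (q : ℕ) (hq : 0 < q) (t : ℤ) :
    ∑ h ∈ range q, ex (t * h / q) = if (q : ℤ) ∣ t then (q : ℂ) else 0 := by
  have hq' : (q : ℝ) ≠ 0 := by positivity
  have e : ∀ h : ℕ, ex (t * h / q) = ex (t / q) ^ h := by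
    intro h; rw [← ex_nat_mul]; congr 1; ring
  simp_rw [e]
  split_ifs with hd
  · obtain ⟨k, rfl⟩ := hd
    have : ((((q : ℤ) * k : ℤ) : ℝ) / q) = (k : ℝ) := by push_cast; field_simp
    rw [this, ex_int]; simp
  · have hne : ex (t / q) ≠ 1 := by
      intro h1
      obtain ⟨n, hn⟩ := ex_eq_one h1
      apply hd
      refine ⟨n, ?_⟩
      have : (t : ℝ) = q * n := by field_simp at hn; linarith
      exact_mod_cast this
    have hp : ex (t / q) ^ q = 1 := by
      rw [← ex_nat_mul]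
      have : (q : ℝ) * (t / q) = t := by field_simp
      rw [this, ex_int]
    rw [geom_sum_eq hne, hp]; simp

/-- Fourier data of a bounded periodic function. -/
lemma fourier (q : ℕ) (hq : 0 < q) (g : ℤ → ℝ) (hper : ∀ n m : ℤ, (q : ℤ) ∣ n - m → g n = g m)
    (hb : ∀ n, |g n| ≤ 1) :
    ∃ c : ℕ → ℂ, (∀ n : ℤ, (g n : ℂ) = ∑ h ∈ range q, c h * ex (n * h / q)) ∧
      ∑ h ∈ range q, ‖c h‖ ^ 2 ≤ 1 ∧ ((∀ n, g (-n) = - g n) → c 0 = 0) := by
  have hq' : (q : ℝ) ≠ 0 := by positivity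
  have hqc : (q : ℂ) ≠ 0 := by exact_mod_cast hq.ne'
  set c : ℕ → ℂ := fun h => (q : ℂ)⁻¹ * ∑ m ∈ range q, (g m : ℂ) * ex (-(m * h / q)) with hc
  have inv : ∀ n : ℤ, (g n : ℂ) = ∑ h ∈ range q, c h * ex (n * h / q) := by
    intro n
    have h1 : ∑ h ∈ range q, c h * ex (n * h / q)
        = (q : ℂ)⁻¹ * ∑ m ∈ range q, (g m : ℂ) * ∑ h ∈ range q, ex (((n - m : ℤ) : ℝ) * h / q) := by
      simp only [hc, mul_sum, sum_mul]
      rw [sum_comm]
      refine sum_congr rfl fun m _ => sum_congr rfl fun h _ => ?_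
      rw [mul_assoc, mul_assoc, ← ex_add]
      congr 3; push_cast; ring
    rw [h1]
    simp_rw [orth q hq]
    have hqz : (0 : ℤ) < q := by exact_mod_cast hq
    set r : ℕ := (n % q).toNat with hr
    have hr0 : (r : ℤ) = n % q := Int.toNat_of_nonneg (Int.emod_nonneg _ hqz.ne')
    have hrq : r < q := by
      have := Int.emod_lt_of_pos n hqz
      omega
    have hdv : (q : ℤ) ∣ n - r := by rw [hr0]; exact Int.dvd_self_sub_emod
    rw [sum_eq_single r]
    · rw [if_pos hdv, hper n r hdv]; field_simp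
    · intro m hm hne
      rw [if_neg, mul_zero]
      intro hd
      apply hne
      have h3 : (q : ℤ) ∣ (r : ℤ) - m := by
        have := Int.dvd_sub hd hdv
        have e : n - m - (n - r) = (r : ℤ) - m := by ring
        rwa [e] at this
      have hm' := mem_range.mp hm
      have := Int.eq_zero_of_abs_lt_dvd h3 (by rw [abs_lt]; constructor <;> omega)
      omega
    · intro h; exact absurd (mem_range.mpr hrq) h
  refine ⟨c, inv, ?_, ?_⟩
  · have h1 : ((∑ h ∈ range q, ‖c h‖ ^ 2 : ℝ) : ℂ)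
        = (q : ℂ)⁻¹ * ∑ m ∈ range q, (g m : ℂ) * (g m : ℂ) := by
      push_cast
      have : ∀ h ∈ range q, ((‖c h‖ : ℂ)) ^ 2
          = (q : ℂ)⁻¹ * ∑ m ∈ range q, (g m : ℂ) * (c h * ex (((m : ℤ) : ℝ) * h / q)) := by
        intro h _
        rw [← Complex.mul_conj']
        have : (starRingEnd ℂ) (c h) = (q : ℂ)⁻¹ * ∑ m ∈ range q, (g m : ℂ) * ex (m * h / q) := by
          simp only [hc, map_mul, map_sum, conj_ex, neg_neg, Complex.conj_ofReal, map_inv₀,
            map_natCast]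
        rw [this, mul_sum, mul_sum, mul_sum]
        refine sum_congr rfl fun m _ => ?_
        push_cast; ring
      rw [sum_congr rfl this, ← mul_sum, sum_comm]
      congr 1
      refine sum_congr rfl fun m _ => ?_
      rw [← mul_sum, ← inv]
    have h2 : (∑ h ∈ range q, ‖c h‖ ^ 2 : ℝ) = (q : ℝ)⁻¹ * ∑ m ∈ range q, g m * g m := by
      apply Complex.ofReal_injective
      rw [h1]; push_cast; rfl
    rw [h2]
    have h3 : ∑ m ∈ range q, g m * g m ≤ q := by
      calc ∑ m ∈ range q, g m * g m ≤ ∑ m ∈ range q, (1 : ℝ) := by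
            refine sum_le_sum fun m _ => ?_
            have := hb m
            rw [abs_le] at this
            nlinarith
        _ = q := by simp
    have hqp : (0 : ℝ) < q := by positivity
    rw [inv_mul_le_iff₀ hqp]; linarith
  · intro hodd
    have h0 : ∑ m ∈ range q, g m = 0 := by
      have h1 : ∑ m ∈ range q, g m = ∑ m ∈ range q, g ((q - 1 - m : ℕ) + 1) := by
        rw [sum_range_reflect (fun m : ℕ => g ((m : ℤ) + 1)) q]
        have a1 := sum_range_succ (fun m : ℕ => g m) q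
        have a2 := sum_range_succ' (fun m : ℕ => g m) q
        have a3 : g (q : ℤ) = g ((0 : ℕ) : ℤ) := hper _ _ (by simp)
        simp only [Nat.cast_add, Nat.cast_one] at a2
        linarith
      have h2 : ∑ m ∈ range q, g ((q - 1 - m : ℕ) + 1) = ∑ m ∈ range q, - g m := by
        refine sum_congr rfl fun m hm => ?_
        have hm' := mem_range.mp hm
        rw [← hodd]
        apply hper
        refine ⟨1, ?_⟩
        have : ((q - 1 - m : ℕ) : ℤ) = q - 1 - m := by omega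
        rw [this]; ring
      rw [sum_neg_distrib] at h2
      linarith
    simp only [hc, Nat.cast_zero, mul_zero, zero_div, neg_zero, ex_zero, mul_one]
    have : ∑ m ∈ range q, (g m : ℂ) = 0 := by exact_mod_cast h0
    rw [this, mul_zero]

/-- The Fejer kernel. -/
noncomputable def K (L : ℕ) (t : ℝ) : ℝ := ‖∑ i ∈ range L, ex (i * t)‖ ^ 2

lemma K_nonneg (L : ℕ) (t : ℝ) : 0 ≤ K L t := by unfold K; positivity

lemma K_eq (L : ℕ) (t : ℝ) :
    ∑ i ∈ range L, ∑ j ∈ range L, ex ((((i : ℤ) - (j : ℤ) : ℤ) : ℝ) * t) = (K L t : ℂ) := by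
  unfold K
  push_cast
  rw [← Complex.mul_conj', map_sum, sum_mul_sum]
  refine sum_congr rfl fun i _ => sum_congr rfl fun j _ => ?_
  rw [conj_ex, ← ex_add]; congr 1; ring

lemma K_le_sq (L : ℕ) (t : ℝ) : K L t ≤ (L : ℝ) ^ 2 := by
  unfold K
  have : ‖∑ i ∈ range L, ex (i * t)‖ ≤ L := by
    calc _ ≤ ∑ i ∈ range L, ‖ex (i * t)‖ := norm_sum_le _ _
      _ = L := by simp [norm_ex]
  gcongr

lemma K_add_int (L : ℕ) (t : ℝ) (k : ℤ) : K L (t + k) = K L t := by
  unfold K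
  congr 2
  refine sum_congr rfl fun i _ => ?_
  have : (i : ℝ) * (t + k) = i * t + ((i * k : ℤ) : ℝ) := by push_cast; ring
  rw [this, ex_add, ex_int, mul_one]

lemma norm_ex_sub_one {t : ℝ} (ht : |t| ≤ 1 / 2) : 4 * |t| ≤ ‖ex t - 1‖ := by
  have h1 : ex t = Complex.exp (I * ((2 * Real.pi * t : ℝ) : ℂ)) := by
    unfold ex; congr 1; push_cast; ring
  rw [h1, Complex.norm_exp_I_mul_ofReal_sub_one]
  have h2 : 2 * Real.pi * t / 2 = Real.pi * t := by ring
  rw [h2, norm_mul, Real.norm_eq_abs, Real.norm_eq_abs]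
  have hp := Real.pi_pos
  have h3 : |Real.pi * t| ≤ Real.pi / 2 := by
    rw [abs_mul, abs_of_pos hp]; nlinarith
  have h4 := Real.mul_abs_le_abs_sin h3
  rw [abs_mul, abs_of_pos hp] at h4
  have h5 : 2 / Real.pi * (Real.pi * |t|) = 2 * |t| := by field_simp
  rw [h5] at h4
  rw [abs_two]; linarith

lemma K_le_inv (L : ℕ) {t : ℝ} (h0 : t ≠ 0) (ht : |t| ≤ 1 / 2) : K L t ≤ 1 / (4 * t ^ 2) := by
  have hp : 0 < |t| := abs_pos.mpr h0
  have h1 := norm_ex_sub_one ht
  have hne : ex t ≠ 1 := by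
    intro h; rw [h, sub_self, norm_zero] at h1; linarith
  unfold K
  simp_rw [ex_nat_mul]
  rw [geom_sum_eq hne, norm_div]
  have h2 : ‖ex t ^ L - 1‖ ≤ 2 := by
    calc _ ≤ ‖ex t ^ L‖ + ‖(1 : ℂ)‖ := norm_sub_le _ _
      _ = 2 := by rw [norm_pow, norm_ex]; norm_num
  have h3 : ‖ex t ^ L - 1‖ / ‖ex t - 1‖ ≤ 2 / (4 * |t|) := by
    gcongr
  calc (‖ex t ^ L - 1‖ / ‖ex t - 1‖) ^ 2 ≤ (2 / (4 * |t|)) ^ 2 := by gcongr
    _ = 1 / (4 * t ^ 2) := by
      rw [← sq_abs t]; field_simp; norm_num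

end Pool.Agent.P.MP_6da505_nt.U
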