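import Pool.Agent.P.MP_6da505_nt.U.Fin

open Finset

namespace Pool.Agent.P.MP_6da505_nt.U

theorem seq_bound : ∃ c : ℝ, 0 < c ∧ ∀ (a : ℕ → ℕ) (n : ℕ), StrictMono a → 2 ≤ n →
    (∀ i ≤ n, ∀ j ≤ n, Squarefree (a i + a j)) →
    c * (n : ℝ) ^ (11 / 8 : ℝ) / Real.log n ^ (33 / 8 : ℝ) ≤ a n := by
  obtain ⟨C, hC, h⟩ := finite_bound
  refine ⟨min ((8 * C) ^ (-(11 / 8) : ℝ)) (1 / 32), by positivity, fun a n ha hn hsq => ?_⟩
  have hn' : (2 : ℝ) ≤ n := by exact_mod_cast hn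
  have hl2 : Real.log 2 ≤ Real.log n := Real.log_le_log (by norm_num) hn'
  have a2 := Real.log_two_gt_d9
  have hl0 : 0 < Real.log n := by linarith
  have hle : n ≤ a n := ha.le_apply
  have hN : (2 : ℝ) ≤ a n := by exact_mod_cast hn.trans hle
  rw [div_le_iff₀ (by positivity)]
  by_cases hbig : a n ≤ n ^ 2
  · have hc := h (a n) ((range (n + 1)).image a) (hn.trans hle) (by
      intro x hx
      obtain ⟨i, hi, rfl⟩ := mem_image.mp hx
      have hi' : i ≤ n := Nat.lt_succ_iff.mp (mem_range.mp hi)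
      refine mem_Icc.mpr ⟨?_, ha.monotone hi'⟩
      by_contra h0
      have h1 : a i = 0 := by omega
      have := hsq i hi' i hi'
      rw [h1] at this
      exact not_squarefree_zero this) (by
      intro x hx y hy
      obtain ⟨i, hi, rfl⟩ := mem_image.mp hx
      obtain ⟨j, hj, rfl⟩ := mem_image.mp hy
      exact hsq i (Nat.lt_succ_iff.mp (mem_range.mp hi)) j (Nat.lt_succ_iff.mp (mem_range.mp hj)))
    rw [card_image_of_injective _ ha.injective, card_range] at hc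
    push_cast at hc
    have hlog : Real.log (a n) ≤ 2 * Real.log n := by
      have : (a n : ℝ) ≤ (n : ℝ) ^ 2 := by exact_mod_cast hbig
      have := Real.log_le_log (by linarith) this
      rw [Real.log_pow] at this
      exact_mod_cast this
    have hl1 : 0 ≤ Real.log (a n) := Real.log_nonneg (by linarith)
    have h1 : (n : ℝ) ≤ 8 * C * ((a n : ℝ) ^ (8 / 11 : ℝ) * Real.log n ^ 3) := by
      calc (n : ℝ) ≤ C * (a n : ℝ) ^ (8 / 11 : ℝ) * Real.log (a n) ^ 3 := by linarith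
        _ ≤ C * (a n : ℝ) ^ (8 / 11 : ℝ) * (2 * Real.log n) ^ 3 := by gcongr
        _ = _ := by ring
    have h2 : (n : ℝ) ^ (11 / 8 : ℝ)
        ≤ (8 * C * ((a n : ℝ) ^ (8 / 11 : ℝ) * Real.log n ^ 3)) ^ (11 / 8 : ℝ) := by gcongr
    have h3 : (8 * C * ((a n : ℝ) ^ (8 / 11 : ℝ) * Real.log n ^ 3)) ^ (11 / 8 : ℝ)
        = (8 * C) ^ (11 / 8 : ℝ) * ((a n : ℝ) * Real.log n ^ (33 / 8 : ℝ)) := by
      rw [Real.mul_rpow (x := 8 * C) (by positivity) (by positivity),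
        Real.mul_rpow (x := (a n : ℝ) ^ (8 / 11 : ℝ)) (by positivity) (by positivity),
        ← Real.rpow_mul (by positivity), ← Real.rpow_natCast, ← Real.rpow_mul hl0.le]
      norm_num
    have h4 : (8 * C) ^ (-(11 / 8) : ℝ) * (8 * C) ^ (11 / 8 : ℝ) = 1 := by
      rw [← Real.rpow_add (by positivity)]; norm_num
    calc _ ≤ (8 * C) ^ (-(11 / 8) : ℝ) * (n : ℝ) ^ (11 / 8 : ℝ) := by
          gcongr; exact min_le_left _ _
      _ ≤ (8 * C) ^ (-(11 / 8) : ℝ)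
            * ((8 * C) ^ (11 / 8 : ℝ) * ((a n : ℝ) * Real.log n ^ (33 / 8 : ℝ))) := by
          rw [← h3]; gcongr
      _ = _ := by rw [← mul_assoc, h4, one_mul]
  · have h1 : (n : ℝ) ^ 2 ≤ a n := by exact_mod_cast (not_le.mp hbig).le
    have h2 : (n : ℝ) ^ (11 / 8 : ℝ) ≤ (n : ℝ) ^ 2 := by
      rw [← Real.rpow_natCast]
      exact Real.rpow_le_rpow_of_exponent_le (by linarith) (by norm_num)
    have h3 : (1 / 32 : ℝ) ≤ Real.log n ^ (33 / 8 : ℝ) := by
      calc (1 / 32 : ℝ) = (1 / 2 : ℝ) ^ ((5 : ℕ) : ℝ) := by rw [Real.rpow_natCast]; norm_num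
        _ ≤ (1 / 2 : ℝ) ^ (33 / 8 : ℝ) :=
            Real.rpow_le_rpow_of_exponent_ge (by norm_num) (by norm_num) (by norm_num)
        _ ≤ _ := by gcongr; linarith
    calc _ ≤ (1 / 32) * (n : ℝ) ^ (11 / 8 : ℝ) := by gcongr; exact min_le_right _ _
      _ ≤ Real.log n ^ (33 / 8 : ℝ) * a n := by gcongr; exact h2.trans h1
      _ = _ := by ring

end Pool.Agent.P.MP_6da505_nt.U
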