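import Pool.Agent.P.MP_6da505_nt.U.Four

open Finset

namespace Pool.Agent.P.MP_6da505_nt.U

/-- Triangular average. -/
noncomputable def Es (L : ℕ) (G : ℤ → ℝ) : ℝ := ∑ i ∈ range L, ∑ j ∈ range L, G ((i : ℤ) - (j : ℤ))

noncomputable def Ds (B : ℕ) : Finset ℤ := (Icc (-(B : ℤ)) B).erase 0

noncomputable def kap (L R : ℝ) (D : ℤ) : ℝ := min (L ^ 2) (R ^ 2 / (D : ℝ) ^ 2)

lemma kap_nonneg (L R : ℝ) (D : ℤ) : 0 ≤ kap L R D := by
  unfold kap; positivity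

lemma mem_Ds {B : ℕ} {D : ℤ} : D ∈ Ds B ↔ D ≠ 0 ∧ |D| ≤ B := by
  unfold Ds; rw [mem_erase, mem_Icc, abs_le]

lemma Ds_succ (B : ℕ) : Ds (B + 1) = insert ((B : ℤ) + 1) (insert (-((B : ℤ) + 1)) (Ds B)) := by
  ext D
  simp only [mem_insert, mem_Ds, abs_le]
  push_cast; omega

lemma sum_kap_aux {L R : ℝ} (hL : 0 < L) (hR : 0 < R) (B : ℕ) :
    ∑ D ∈ Ds B, kap L R D ≤ 8 * L * R - 8 * L * R ^ 2 / (R + L * B) := by
  induction B with
  | zero =>
    have : Ds 0 = ∅ := by ext D; simp [mem_Ds]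
    rw [this]; simp only [sum_empty, Nat.cast_zero, mul_zero, add_zero]
    have : 8 * L * R ^ 2 / R = 8 * L * R := by field_simp
    linarith
  | succ B ih =>
    rw [Ds_succ, sum_insert, sum_insert]
    · have hB : (0 : ℝ) ≤ B := by positivity
      have e1 : kap L R (-((B : ℤ) + 1)) = kap L R ((B : ℤ) + 1) := by
        unfold kap; push_cast; rw [neg_sq]
      rw [e1]
      have key : kap L R ((B : ℤ) + 1) ≤
          4 * L * R ^ 2 / (R + L * B) - 4 * L * R ^ 2 / (R + L * (B + 1)) := by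
        have h1 : 4 * L * R ^ 2 / (R + L * B) - 4 * L * R ^ 2 / (R + L * (B + 1))
            = 4 * L ^ 2 * R ^ 2 / ((R + L * B) * (R + L * (B + 1))) := by
          field_simp; ring
        rw [h1]
        have h2 : 4 * L ^ 2 * R ^ 2 / (R + L * (B + 1)) ^ 2
            ≤ 4 * L ^ 2 * R ^ 2 / ((R + L * B) * (R + L * (B + 1))) := by
          rw [sq (R + L * (B + 1))]
          gcongr
          linarith
        refine le_trans ?_ h2
        unfold kap; push_cast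
        rcases le_total R (L * (B + 1)) with h | h
        · refine (min_le_right _ _).trans ?_
          rw [div_le_div_iff₀ (by positivity) (by positivity)]
          have : (R + L * (B + 1)) ^ 2 ≤ (2 * (L * (B + 1))) ^ 2 := by
            gcongr; linarith
          nlinarith [sq_nonneg R]
        · refine (min_le_left _ _).trans ?_
          rw [le_div_iff₀ (by positivity)]
          have : (R + L * (B + 1)) ^ 2 ≤ (2 * R) ^ 2 := by
            gcongr; linarith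
          nlinarith [sq_nonneg L]
      push_cast
      have e2 : 8 * L * R ^ 2 / (R + L * B) = 2 * (4 * L * R ^ 2 / (R + L * B)) := by ring
      have e3 : 8 * L * R ^ 2 / (R + L * (B + 1)) = 2 * (4 * L * R ^ 2 / (R + L * (B + 1))) := by ring
      linarith
    · simp only [mem_Ds, abs_le]; omega
    · simp only [mem_insert, mem_Ds, abs_le]; omega

lemma sum_kap {L R : ℝ} (hL : 0 < L) (hR : 0 < R) (B : ℕ) :
    ∑ D ∈ Ds B, kap L R D ≤ 8 * L * R := by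
  have := sum_kap_aux hL hR B
  have h2 : 0 ≤ 8 * L * R ^ 2 / (R + L * B) := by positivity
  linarith

lemma sum_inv_sq (B : ℕ) : ∑ D ∈ Ds B, 1 / (D : ℝ) ^ 2 ≤ 8 := by
  have := sum_kap (L := 1) (R := 1) one_pos one_pos B
  refine le_trans (sum_le_sum fun D hD => ?_) (this.trans (by norm_num))
  have h0 := (mem_Ds.mp hD).1
  have h1 : (1 : ℝ) ≤ (D : ℝ) ^ 2 := by
    have : (1 : ℤ) ≤ D ^ 2 := by
      have := sq_pos_of_ne_zero (a := D) h0
      omega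
    exact_mod_cast this
  unfold kap
  rw [one_pow]
  refine le_min ?_ le_rfl
  rw [div_le_one (by linarith)]; exact h1

lemma sum_kap_sq (L R : ℝ) (B : ℕ) : ∑ D ∈ Ds B, kap L R D ≤ 8 * R ^ 2 := by
  calc ∑ D ∈ Ds B, kap L R D ≤ ∑ D ∈ Ds B, R ^ 2 * (1 / (D : ℝ) ^ 2) := by
        refine sum_le_sum fun D _ => (min_le_right _ _).trans (le_of_eq (by ring))
    _ = R ^ 2 * ∑ D ∈ Ds B, 1 / (D : ℝ) ^ 2 := by rw [mul_sum]
    _ ≤ R ^ 2 * 8 := by gcongr; exact sum_inv_sq B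
    _ = _ := by ring

lemma sum_le_sum_inj {α β : Type*} [DecidableEq β] (S : Finset α) (T : Finset β) (φ : α → β)
    (f : α → ℝ) (F : β → ℝ) (hinj : Set.InjOn φ S) (hT : ∀ a ∈ S, φ a ∈ T)
    (hf : ∀ a ∈ S, f a ≤ F (φ a)) (hF : ∀ b ∈ T, 0 ≤ F b) : ∑ a ∈ S, f a ≤ ∑ b ∈ T, F b := by
  calc ∑ a ∈ S, f a ≤ ∑ a ∈ S, F (φ a) := sum_le_sum hf
    _ = ∑ b ∈ S.image φ, F b := (sum_image hinj).symm
    _ ≤ ∑ b ∈ T, F b := by
        refine sum_le_sum_of_subset_of_nonneg ?_ fun b hb _ => hF b hb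
        intro b hb
        obtain ⟨a, ha, rfl⟩ := mem_image.mp hb
        exact hT a ha

lemma sum_kap_dvd (L R : ℝ) (B x : ℕ) (hx : 0 < x) :
    ∑ D ∈ (Ds B).filter (fun D => (x : ℤ) ∣ D), kap L R D ≤ 8 * R ^ 2 / (x : ℝ) ^ 2 := by
  have hxz : (x : ℤ) ≠ 0 := by exact_mod_cast hx.ne'
  have hxr : (x : ℝ) ≠ 0 := by positivity
  calc _ ≤ ∑ j ∈ Ds B, R ^ 2 / (x : ℝ) ^ 2 * (1 / (j : ℝ) ^ 2) := by
        refine sum_le_sum_inj _ _ (fun D : ℤ => D / (x : ℤ)) _ _ ?_ ?_ ?_ ?_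
        · intro a ha b hb hab
          obtain ⟨a', rfl⟩ := (mem_filter.mp ha).2
          obtain ⟨b', rfl⟩ := (mem_filter.mp hb).2
          simp only [Int.mul_ediv_cancel_left _ hxz] at hab
          rw [hab]
        · intro a ha
          obtain ⟨ha1, a', rfl⟩ := mem_filter.mp ha
          simp only [Int.mul_ediv_cancel_left _ hxz]
          rw [mem_Ds] at ha1 ⊢
          refine ⟨fun h => ha1.1 (by rw [h, mul_zero]), le_trans ?_ ha1.2⟩
          rw [abs_mul]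
          have : (1 : ℤ) ≤ |(x : ℤ)| := Int.one_le_abs hxz
          nlinarith [abs_nonneg a']
        · intro a ha
          obtain ⟨ha1, a', rfl⟩ := mem_filter.mp ha
          simp only [Int.mul_ediv_cancel_left _ hxz]
          refine (min_le_right _ _).trans (le_of_eq ?_)
          push_cast
          rw [mul_pow, div_mul_div_comm, mul_one]
        · intro b _; positivity
    _ = R ^ 2 / (x : ℝ) ^ 2 * ∑ j ∈ Ds B, 1 / (j : ℝ) ^ 2 := by rw [mul_sum]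
    _ ≤ R ^ 2 / (x : ℝ) ^ 2 * 8 := by gcongr; exact sum_inv_sq B
    _ = _ := by ring

lemma exists_sym (Q : ℕ) (hQ : 0 < Q) (s : ℤ) : ∃ D k : ℤ, s = D + Q * k ∧ 2 * |D| ≤ Q := by
  have hQz : (0 : ℤ) < Q := by exact_mod_cast hQ
  have h1 := Int.emod_nonneg s hQz.ne'
  have h2 := Int.emod_lt_of_pos s hQz
  have h3 := Int.emod_add_mul_ediv s Q
  by_cases h : 2 * (s % Q) ≤ Q
  · exact ⟨s % Q, s / Q, h3.symm, by rw [abs_of_nonneg h1]; exact h⟩
  · refine ⟨s % Q - Q, s / Q + 1, by linarith, ?_⟩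
    rw [abs_of_neg (by omega)]; omega

/-- The squared Fourier mass of `c` on the residues `h` mod `q` with `h * v ≡ D`. -/
noncomputable def al (q : ℕ) (c : ℕ → ℂ) (v : ℕ) (D : ℤ) : ℝ :=
  ∑ h ∈ (range q).filter (fun h : ℕ => (q : ℤ) ∣ (h : ℤ) * v - D), ‖c h‖ ^ 2

lemma al_nonneg (q : ℕ) (c : ℕ → ℂ) (v : ℕ) (D : ℤ) : 0 ≤ al q c v D :=
  sum_nonneg fun _ _ => by positivity

lemma al_le_one {q : ℕ} {c : ℕ → ℂ} (hc : ∑ h ∈ range q, ‖c h‖ ^ 2 ≤ 1) (v : ℕ) (D : ℤ) :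
    al q c v D ≤ 1 :=
  le_trans (sum_le_sum_of_subset_of_nonneg (filter_subset _ _) fun _ _ _ => by positivity) hc

lemma le_al {q : ℕ} (c : ℕ → ℂ) {v : ℕ} {D : ℤ} {h : ℕ} (hh : h < q)
    (hd : (q : ℤ) ∣ (h : ℤ) * v - D) : ‖c h‖ ^ 2 ≤ al q c v D :=
  single_le_sum (f := fun h => ‖c h‖ ^ 2) (fun _ _ => by positivity)
    (mem_filter.mpr ⟨mem_range.mpr hh, hd⟩)

lemma eq_of_dvd_mul {q v : ℕ} (hc : Nat.Coprime q v) {a b : ℕ} (ha : a < q) (hb : b < q)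
    (h : (q : ℤ) ∣ ((a : ℤ) - b) * v) : a = b := by
  have h1 : IsCoprime (q : ℤ) (v : ℤ) := Nat.isCoprime_iff_coprime.mpr hc
  have h2 := h1.dvd_of_dvd_mul_right h
  have := Int.eq_zero_of_abs_lt_dvd h2 (by rw [abs_lt]; constructor <;> omega)
  omega

theorem tri (L q1 q2 q3 : ℕ) (h1 : 0 < q1) (h2 : 0 < q2) (h3 : 0 < q3)
    (c12 : Nat.Coprime q1 q2) (c13 : Nat.Coprime q1 q3) (c23 : Nat.Coprime q2 q3)
    (g1 g2 g3 : ℤ → ℝ) (c1 c2 c3 : ℕ → ℂ)
    (e1 : ∀ n : ℤ, (g1 n : ℂ) = ∑ h ∈ range q1, c1 h * ex (n * h / q1))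
    (e2 : ∀ n : ℤ, (g2 n : ℂ) = ∑ h ∈ range q2, c2 h * ex (n * h / q2))
    (e3 : ∀ n : ℤ, (g3 n : ℂ) = ∑ h ∈ range q3, c3 h * ex (n * h / q3))
    (z1 : c1 0 = 0) (p3 : ∑ h ∈ range q3, ‖c3 h‖ ^ 2 ≤ 1)
    (R : ℝ) (B : ℕ) (hR : ((q1 * q2 * q3 : ℕ) : ℝ) ≤ 2 * R) (hB : q1 * q2 * q3 ≤ B) :
    |Es L (fun n => g1 n * g2 n * g3 n)| ≤
      ∑ D ∈ Ds B, kap L R D * ((al q1 c1 (q2 * q3) D + al q2 c2 (q1 * q3) D) / 2) := by
  classical
  set Q := q1 * q2 * q3 with hQ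
  have hQp : 0 < Q := by positivity
  choose Dm km hDk hDb using exists_sym Q hQp
  set S := range q1 ×ˢ range q2 ×ˢ range q3 with hS
  set s : ℕ × ℕ × ℕ → ℤ := fun t =>
    (t.1 : ℤ) * (q2 * q3 : ℕ) + (t.2.1 : ℤ) * (q1 * q3 : ℕ) + (t.2.2 : ℤ) * (q1 * q2 : ℕ) with hs
  have r1 : (q1 : ℝ) ≠ 0 := by positivity
  have r2 : (q2 : ℝ) ≠ 0 := by positivity
  have r3 : (q3 : ℝ) ≠ 0 := by positivity
  have hE : ((Es L (fun n => g1 n * g2 n * g3 n) : ℝ) : ℂ)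
      = ∑ t ∈ S, c1 t.1 * c2 t.2.1 * c3 t.2.2 * (K L ((Dm (s t) : ℝ) / Q) : ℂ) := by
    have hpt : ∀ n : ℤ, ((g1 n * g2 n * g3 n : ℝ) : ℂ)
        = ∑ t ∈ S, c1 t.1 * c2 t.2.1 * c3 t.2.2 * ex (n * ((s t : ℝ) / Q)) := by
      intro n
      push_cast
      rw [e1, e2, e3, hS, sum_product, mul_assoc, sum_mul_sum, ← sum_product', sum_mul_sum]
      refine sum_congr rfl fun a _ => sum_congr rfl fun b _ => ?_
      have : (n : ℝ) * ((s (a, b) : ℝ) / Q) = n * a / q1 + (n * b.1 / q2 + n * b.2 / q3) := by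
        simp only [hs, hQ]; push_cast; field_simp; ring
      rw [this, ex_add, ex_add]; ring
    unfold Es
    rw [Complex.ofReal_sum]
    simp_rw [Complex.ofReal_sum, hpt]
    rw [sum_congr rfl fun i _ => sum_comm, sum_comm]
    refine sum_congr rfl fun t _ => ?_
    have hk : K L ((Dm (s t) : ℝ) / Q) = K L ((s t : ℝ) / Q) := by
      have : (s t : ℝ) / Q = (Dm (s t) : ℝ) / Q + km (s t) := by
        have hQr : (Q : ℝ) ≠ 0 := by positivity
        have := hDk (s t)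
        have h' : (s t : ℝ) = Dm (s t) + Q * km (s t) := by exact_mod_cast this
        rw [h']; field_simp
      rw [this, K_add_int]
    rw [hk, ← K_eq]
    simp_rw [mul_sum]
  have hd1 : ∀ t, (q1 : ℤ) ∣ (t.1 : ℤ) * (q2 * q3 : ℕ) - Dm (s t) := by
    intro t
    have := hDk (s t)
    refine ⟨q2 * q3 * km (s t) - t.2.1 * q3 - t.2.2 * q2, ?_⟩
    simp only [hs, hQ] at this ⊢
    push_cast at this ⊢
    linear_combination this
  have hd2 : ∀ t, (q2 : ℤ) ∣ (t.2.1 : ℤ) * (q1 * q3 : ℕ) - Dm (s t) := by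
    intro t
    have := hDk (s t)
    refine ⟨q1 * q3 * km (s t) - t.1 * q3 - t.2.2 * q1, ?_⟩
    simp only [hs, hQ] at this ⊢
    push_cast at this ⊢
    linear_combination this
  have hd3 : ∀ t, (q3 : ℤ) ∣ (t.2.2 : ℤ) * (q1 * q2 : ℕ) - Dm (s t) := by
    intro t
    have := hDk (s t)
    refine ⟨q1 * q2 * km (s t) - t.1 * q2 - t.2.1 * q1, ?_⟩
    simp only [hs, hQ] at this ⊢
    push_cast at this ⊢
    linear_combination this
  have hmem : ∀ t ∈ S, t.1 < q1 ∧ t.2.1 < q2 ∧ t.2.2 < q3 := by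
    intro t ht
    simpa [hS] using ht
  have k1 : Nat.Coprime q1 (q2 * q3) := Nat.Coprime.mul_right c12 c13
  have k2 : Nat.Coprime q2 (q1 * q3) := Nat.Coprime.mul_right c12.symm c23
  have k3 : Nat.Coprime q3 (q1 * q2) := Nat.Coprime.mul_right c13.symm c23.symm
  rw [← Real.norm_eq_abs, ← Complex.norm_real, hE]
  refine (norm_sum_le _ _).trans ?_
  rw [← sum_filter_add_sum_filter_not S (fun t => t.1 = 0)]
  have hz : ∑ t ∈ S.filter (fun t => t.1 = 0),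
      ‖c1 t.1 * c2 t.2.1 * c3 t.2.2 * (K L ((Dm (s t) : ℝ) / Q) : ℂ)‖ = 0 := by
    refine sum_eq_zero fun t ht => ?_
    rw [(mem_filter.mp ht).2, z1]; simp
  rw [hz, zero_add]
  have hne : ∀ t ∈ S.filter (fun t => ¬ t.1 = 0), Dm (s t) ≠ 0 := by
    intro t ht h0
    obtain ⟨ht1, ht2⟩ := mem_filter.mp ht
    have := hd1 t
    rw [h0, sub_zero] at this
    exact ht2 (eq_of_dvd_mul k1 (hmem t ht1).1 h1 (by simpa using this))
  refine sum_le_sum_inj _ _ (fun t => Dm (s t)) _ _ ?_ ?_ ?_ ?_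
  · intro t ht t' ht' heq
    simp only at heq
    have m := hmem t (mem_filter.mp ht).1
    have m' := hmem t' (mem_filter.mp ht').1
    have a1 : t.1 = t'.1 := eq_of_dvd_mul k1 m.1 m'.1 (by
      have := Int.dvd_sub (hd1 t) (hd1 t')
      rw [heq] at this
      convert this using 1; ring)
    have a2 : t.2.1 = t'.2.1 := eq_of_dvd_mul k2 m.2.1 m'.2.1 (by
      have := Int.dvd_sub (hd2 t) (hd2 t')
      rw [heq] at this
      convert this using 1; ring)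
    have a3 : t.2.2 = t'.2.2 := eq_of_dvd_mul k3 m.2.2 m'.2.2 (by
      have := Int.dvd_sub (hd3 t) (hd3 t')
      rw [heq] at this
      convert this using 1; ring)
    exact Prod.ext a1 (Prod.ext a2 a3)
  · intro t ht
    rw [mem_Ds]
    refine ⟨hne t ht, ?_⟩
    have := hDb (s t)
    have h4 := abs_nonneg (Dm (s t))
    have h5 : (Q : ℤ) ≤ B := by exact_mod_cast hB
    omega
  · intro t ht
    have m := hmem t (mem_filter.mp ht).1
    have hD := hne t ht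
    have hDr : (Dm (s t) : ℝ) ≠ 0 := by exact_mod_cast hD
    have hQr : (0 : ℝ) < Q := by positivity
    have hK : K L ((Dm (s t) : ℝ) / Q) ≤ kap L R (Dm (s t)) := by
      refine le_min (K_le_sq _ _) ?_
      have hb : |(Dm (s t) : ℝ) / Q| ≤ 1 / 2 := by
        rw [abs_div, abs_of_pos hQr, div_le_div_iff₀ hQr (by norm_num)]
        have := hDb (s t)
        have h' : 2 * |(Dm (s t) : ℝ)| ≤ Q := by exact_mod_cast this
        linarith
      refine (K_le_inv L (div_ne_zero hDr hQr.ne') hb).trans ?_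
      have : 1 / (4 * ((Dm (s t) : ℝ) / Q) ^ 2) = ((Q : ℝ) / 2) ^ 2 / (Dm (s t) : ℝ) ^ 2 := by
        field_simp; norm_num
      rw [this]
      gcongr
      linarith
    have b1 := le_al c1 m.1 (hd1 t)
    have b2 := le_al c2 m.2.1 (hd2 t)
    have b3 : ‖c3 t.2.2‖ ≤ 1 := by
      have : ‖c3 t.2.2‖ ^ 2 ≤ 1 :=
        le_trans (single_le_sum (f := fun h => ‖c3 h‖ ^ 2) (fun _ _ => by positivity)
          (mem_range.mpr m.2.2)) p3
      nlinarith [norm_nonneg (c3 t.2.2)]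
    rw [norm_mul, norm_mul, norm_mul, Complex.norm_real, Real.norm_eq_abs,
      abs_of_nonneg (K_nonneg _ _), mul_comm]
    have b4 : ‖c1 t.1‖ * ‖c2 t.2.1‖ * ‖c3 t.2.2‖
        ≤ (al q1 c1 (q2 * q3) (Dm (s t)) + al q2 c2 (q1 * q3) (Dm (s t))) / 2 := by
      have : ‖c1 t.1‖ * ‖c2 t.2.1‖ * ‖c3 t.2.2‖ ≤ ‖c1 t.1‖ * ‖c2 t.2.1‖ * 1 := by gcongr
      nlinarith [sq_nonneg (‖c1 t.1‖ - ‖c2 t.2.1‖)]
    exact mul_le_mul hK b4 (by positivity) (kap_nonneg _ _ _)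
  · intro D _
    have := kap_nonneg L R D
    have := al_nonneg q1 c1 (q2 * q3) D
    have := al_nonneg q2 c2 (q1 * q3) D
    positivity

end Pool.Agent.P.MP_6da505_nt.U
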